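import Pool.Agent.Helper47.EG.FinW
import Pool.Agent.Helper63.EW.MaxG

/-! Edge weights: assembly of the clauses. -/

set_option autoImplicit false

namespace Pool.Agent.Helper25.ED

open Pool.Agent.Helper47.EG (bad)
open Pool.Agent.Helper95.EW (Pl)
open Pool.Agent.Helper63.EW (S of_weighted to_weighted)

variable {w : ℝ → ℝ}

/-- windows, both signs, from the two one sided statements -/
theorem two_signs {a : ℕ → ℝ} (h : ∀ σ u₀ : ℝ, Pl σ u₀ → ∀ K : ℝ, ∃ X₀ : ℕ, ∀ X : ℕ, X₀ ≤ X → ¬ bad (fun n => σ * a n) w K X)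
    (K : ℝ) : ∃ X₀ : ℕ, ∀ X : ℕ, X₀ ≤ X →
      (∃ N : ℕ, X ≤ N ∧ N ≤ X ^ 3 ∧ K * √N < S a w N) ∧ ∃ N : ℕ, X ≤ N ∧ N ≤ X ^ 3 ∧ S a w N < -(K * √N) := by
  obtain ⟨X₁, h1⟩ := h 1 0 (Or.inl ⟨rfl, rfl⟩) K
  obtain ⟨X₂, h2⟩ := h (-1) (Real.log 2) (Or.inr ⟨rfl, rfl⟩) K
  refine ⟨max X₁ X₂, fun X hX => ⟨?_, ?_⟩⟩
  · have h3 := h1 X ((le_max_left _ _).trans hX)
    unfold bad at h3
    push Not at h3
    obtain ⟨N, hN1, hN2, hN3⟩ := h3
    refine ⟨N, hN1, hN2, ?_⟩
    simpa [S] using hN3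
  · have h3 := h2 X ((le_max_right _ _).trans hX)
    unfold bad at h3
    push Not at h3
    obtain ⟨N, hN1, hN2, hN3⟩ := h3
    refine ⟨N, hN1, hN2, ?_⟩
    have h4 : S (fun n => -1 * a n) w N = -S a w N := by
      simp [S, Finset.sum_neg_distrib]
    rw [h4] at hN3
    linarith

/-- an unbounded weight exceeds every number -/
theorem exceeds (hub : ¬ BddAbove (w '' Set.Ico 0 1)) (B : ℝ) : ∃ t ∈ Set.Ico (0 : ℝ) 1, B < w t := by
  by_contra h
  push Not at h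
  refine hub ⟨B, ?_⟩
  rintro _ ⟨t, ht, rfl⟩
  exact h t ht

/-- the values of the Moebius and Liouville functions are at most one in absolute value -/
theorem abs_le_one {f : ArithmeticFunction ℤ} (hf : f = ArithmeticFunction.moebius ∨ f = ArithmeticFunction.liouville)
    (n : ℕ) : |((f n : ℤ) : ℝ)| ≤ 1 := by
  rcases hf with rfl | rfl
  · have h := ArithmeticFunction.abs_moebius_le_one (n := n)
    exact_mod_cast h
  · rcases eq_or_ne n 0 with rfl | hn
    · simp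
    · rw [ArithmeticFunction.liouville_apply hn]
      push_cast
      rw [abs_pow, abs_neg, abs_one, one_pow]

end Pool.Agent.Helper25.ED
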