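import Pool.Agent.Helper63.EW.MaxG

/-! Edge weights: the second clause in the notation of Landau, with `O` and with `o`. -/

set_option autoImplicit false

namespace Pool.Agent.Helper25.ED

open Filter Finset
open Pool.Agent.Helper63.EW (S max_trunc S_le of_weighted to_weighted)

variable {a : ℕ → ℝ} {w : ℝ → ℝ} {G : ℕ → ℝ}

theorem norm_g (hG1 : ∀ n, 1 ≤ G n) (N : ℕ) : ‖√(N : ℝ) * G N‖ = √(N : ℝ) * G N := by
  rw [Real.norm_eq_abs, abs_of_nonneg]
  exact mul_nonneg (Real.sqrt_nonneg _) (zero_le_one.trans (hG1 N))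

/-- a bound for all `N` from a bound for large `N` -/
theorem O_iff (hG1 : ∀ n, 1 ≤ G n) {g : ℕ → ℝ} (hg : g 0 = 0) :
    (g =O[atTop] fun N : ℕ => √(N : ℝ) * G N) ↔ ∃ K : ℝ, ∀ N : ℕ, |g N| ≤ K * (√(N : ℝ) * G N) := by
  constructor
  · intro h
    obtain ⟨c, hc, h⟩ := h.exists_pos
    rw [Asymptotics.IsBigOWith_def] at h
    obtain ⟨N₀, hN₀⟩ := eventually_atTop.1 h
    set M := ∑ n ∈ range N₀, |g n| with hM
    have hM0 : 0 ≤ M := sum_nonneg fun n _ => abs_nonneg _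
    refine ⟨c + M, fun N => ?_⟩
    have hp : 0 ≤ √(N : ℝ) * G N := mul_nonneg (Real.sqrt_nonneg _) (zero_le_one.trans (hG1 N))
    rcases lt_or_ge N N₀ with h1 | h1
    · rcases Nat.eq_zero_or_pos N with rfl | h2
      · simp [hg]
      · have h3 : |g N| ≤ M := single_le_sum (f := fun n => |g n|) (fun n _ => abs_nonneg _) (mem_range.2 h1)
        have h4 : 1 ≤ √(N : ℝ) := by
          rw [Real.one_le_sqrt]
          exact_mod_cast h2
        have h5 : 1 ≤ √(N : ℝ) * G N := one_le_mul_of_one_le_of_one_le h4 (hG1 N)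
        calc |g N| ≤ M * 1 := by linarith
          _ ≤ M * (√(N : ℝ) * G N) := mul_le_mul_of_nonneg_left h5 hM0
          _ ≤ (c + M) * (√(N : ℝ) * G N) := mul_le_mul_of_nonneg_right (by linarith) hp
    · have h2 := hN₀ N h1
      rw [norm_g hG1, Real.norm_eq_abs] at h2
      exact h2.trans (mul_le_mul_of_nonneg_right (by linarith) hp)
  · rintro ⟨K, hK⟩
    refine Asymptotics.IsBigO.of_bound K (Eventually.of_forall fun N => ?_)
    rw [norm_g hG1, Real.norm_eq_abs]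
    exact hK N

theorem S_zero : S a w 0 = 0 := by simp [S]

theorem F_zero : ∑ n ∈ Icc 1 0, a n = 0 := by simp

/-- the direct part with `o` -/
theorem o_of_weighted (h0 : ∀ t ∈ Set.Ico (0 : ℝ) 1, 0 ≤ w t) (hw : MonotoneOn w (Set.Ico 0 1)) (ha : ∀ n, |a n| ≤ 1)
    (hne : ∃ t ∈ Set.Ico (0 : ℝ) 1, w t ≠ 0) {C : ℝ} (hC : ∀ N : ℕ, 1 ≤ N → w (1 - 1 / N) ≤ C * √N)
    (hG : Monotone G) (hG1 : ∀ n, 1 ≤ G n) (hGt : Tendsto G atTop atTop)
    (h : S a w =o[atTop] fun N : ℕ => √(N : ℝ) * G N) :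
    (fun N : ℕ => ∑ n ∈ Icc 1 N, a n) =o[atTop] fun N : ℕ => √(N : ℝ) * G N := by
  obtain ⟨t, ht, hwt⟩ := hne
  have hwt' : 0 < w t := lt_of_le_of_ne (h0 t ht) (Ne.symm hwt)
  have hst : √t < 1 := by
    rw [Real.sqrt_lt' one_pos]
    simpa using ht.2
  set c := (1 - √t) * w t with hcdef
  have hc : 0 < c := mul_pos (by linarith) hwt'
  have hC0 : 0 ≤ C := by
    have := (h0 0 ⟨le_rfl, one_pos⟩).trans (by simpa using hC 1 le_rfl)
    exact this
  set D : ℝ := √(⌈2 / (1 - t)⌉₊ : ℝ) with hD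
  have hD0 : 0 ≤ D := Real.sqrt_nonneg _
  rw [Asymptotics.isLittleO_iff] at h ⊢
  intro e he
  obtain ⟨N₀, hN₀⟩ := eventually_atTop.1 (h (c := e * c / 2) (by positivity))
  set M := ∑ n ∈ range N₀, |S a w n| with hM
  have hM0 : 0 ≤ M := sum_nonneg fun n _ => abs_nonneg _
  have hlarge : ∀ᶠ N : ℕ in atTop, (M + C) / c + D ≤ e / 2 * G N := by
    have h1 := hGt.const_mul_atTop (show 0 < e / 2 by positivity)
    exact h1.eventually_ge_atTop _
  filter_upwards [hlarge] with N hN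
  rw [norm_g hG1, Real.norm_eq_abs]
  have hSn : ∀ n ≤ N, |S a w n| ≤ (e * c / 2 * G N + M) * √(n : ℝ) := fun n hn => by
    rcases Nat.eq_zero_or_pos n with rfl | hn0
    · simp [S_zero]
    have h4 : 1 ≤ √(n : ℝ) := by
      rw [Real.one_le_sqrt]
      exact_mod_cast hn0
    have hGN : 0 ≤ G N := zero_le_one.trans (hG1 N)
    rcases lt_or_ge n N₀ with h1 | h1
    · have h3 : |S a w n| ≤ M := single_le_sum (f := fun n => |S a w n|) (fun n _ => abs_nonneg _) (mem_range.2 h1)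
      have h5 : 0 ≤ e * c / 2 * G N := by positivity
      nlinarith
    · have h2 := hN₀ n h1
      rw [norm_g hG1, Real.norm_eq_abs] at h2
      have h5 : G n ≤ G N := hG hn
      have h6 : 0 ≤ e * c / 2 * √(n : ℝ) := by positivity
      calc |S a w n| ≤ e * c / 2 * (√(n : ℝ) * G n) := h2
        _ = e * c / 2 * √(n : ℝ) * G n := by ring
        _ ≤ e * c / 2 * √(n : ℝ) * G N := mul_le_mul_of_nonneg_left h5 h6
        _ ≤ (e * c / 2 * G N + M) * √(n : ℝ) := by nlinarith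
  have hup := max_trunc h0 hw ha ht hwt hC (K := e * c / 2 * G N + M) (N := N)
    (fun n hn => (abs_le.1 (hSn n hn)).2) N le_rfl
  have hlo := max_trunc (a := fun n => -a n) h0 hw (fun n => by rw [abs_neg]; exact ha n) ht hwt hC
    (K := e * c / 2 * G N + M) (N := N) (fun n hn => by
      have h3 : S (fun n => -a n) w n = -S a w n := by simp [S, Finset.sum_neg_distrib]
      rw [h3]
      have := (abs_le.1 (hSn n hn)).1
      linarith) N le_rfl
  rw [Finset.sum_neg_distrib] at hlo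
  have hle : max ((e * c / 2 * G N + M + C) / ((1 - √t) * w t)) (√(⌈2 / (1 - t)⌉₊ : ℝ)) ≤ e * G N := by
    have h1 : (e * c / 2 * G N + M + C) / c = e / 2 * G N + (M + C) / c := by
      field_simp
      ring
    have h2 : 0 ≤ (M + C) / c := by positivity
    have h3 : 0 ≤ e / 2 * G N := by
      have := zero_le_one.trans (hG1 N)
      positivity
    apply max_le
    · rw [← hcdef, h1]
      linarith
    · rw [← hD]
      linarith
  have hs : 0 ≤ √(N : ℝ) := Real.sqrt_nonneg _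
  have h5 := mul_le_mul_of_nonneg_right hle hs
  have h6 : e * G N * √(N : ℝ) = e * (√(N : ℝ) * G N) := by ring
  rw [abs_le]
  constructor <;> linarith

/-- the converse with `o`, for bounded weights -/
theorem o_to_weighted (h0 : ∀ t ∈ Set.Ico (0 : ℝ) 1, 0 ≤ w t) (hw : MonotoneOn w (Set.Ico 0 1)) {B : ℝ}
    (hB : ∀ t ∈ Set.Ico (0 : ℝ) 1, w t ≤ B) (hG : Monotone G) (hG1 : ∀ n, 1 ≤ G n)
    (h : (fun N : ℕ => ∑ n ∈ Icc 1 N, a n) =o[atTop] fun N : ℕ => √(N : ℝ) * G N) :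
    S a w =o[atTop] fun N : ℕ => √(N : ℝ) * G N := by
  have hB0 : 0 ≤ B := (h0 0 ⟨le_rfl, one_pos⟩).trans (hB 0 ⟨le_rfl, one_pos⟩)
  rw [Asymptotics.isLittleO_iff] at h ⊢
  intro e he
  obtain ⟨N₀, hN₀⟩ := eventually_atTop.1 (h (c := e / (2 * B + 1)) (by positivity))
  set M := ∑ n ∈ range N₀, |∑ i ∈ Icc 1 n, a i| with hM
  have hM0 : 0 ≤ M := sum_nonneg fun n _ => abs_nonneg _
  have hlarge : ∀ᶠ N : ℕ in atTop, M ≤ e / (2 * B + 1) * √(N : ℝ) := by
    have h1 : Tendsto (fun N : ℕ => √(N : ℝ)) atTop atTop := Real.tendsto_sqrt_atTop.comp tendsto_natCast_atTop_atTop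
    have h2 := h1.const_mul_atTop (show 0 < e / (2 * B + 1) by positivity)
    exact h2.eventually_ge_atTop _
  filter_upwards [hlarge] with N hN
  rw [norm_g hG1, Real.norm_eq_abs]
  have hGN := hG1 N
  have hs : 0 ≤ √(N : ℝ) := Real.sqrt_nonneg _
  have he' : 0 < e / (2 * B + 1) := by positivity
  have h1 := S_le (a := a) h0 hw hB (M := e / (2 * B + 1) * (√(N : ℝ) * G N)) (by positivity) (N := N) (fun n hn => by
    rcases lt_or_ge n N₀ with h1 | h1
    · have h3 : |∑ i ∈ Icc 1 n, a i| ≤ M :=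
        single_le_sum (f := fun n => |∑ i ∈ Icc 1 n, a i|) (fun n _ => abs_nonneg _) (mem_range.2 h1)
      refine h3.trans (hN.trans (mul_le_mul_of_nonneg_left ?_ he'.le))
      nlinarith
    · have h2 := hN₀ n h1
      rw [norm_g hG1, Real.norm_eq_abs] at h2
      refine h2.trans (mul_le_mul_of_nonneg_left ?_ he'.le)
      have h4 : √(n : ℝ) ≤ √(N : ℝ) := Real.sqrt_le_sqrt (by exact_mod_cast hn.le)
      exact mul_le_mul h4 (hG hn.le) (by linarith [hG1 n]) hs)
  refine h1.trans ?_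
  have h3 : 2 * B * (e / (2 * B + 1) * (√(N : ℝ) * G N)) = (2 * B / (2 * B + 1)) * (e * (√(N : ℝ) * G N)) := by
    field_simp
  rw [h3]
  have h4 : 2 * B / (2 * B + 1) ≤ 1 := by
    rw [div_le_one (by positivity)]
    linarith
  have h5 : 0 ≤ e * (√(N : ℝ) * G N) := by positivity
  nlinarith

end Pool.Agent.Helper25.ED
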