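import Pool.Agent.Helper18.ES.Mu

/-!
# ED: sums of the Moebius function with a weight that is unbounded at the edge: definition
-/

set_option autoImplicit false

namespace Pool.Agent.Helper25.ED

/-- The weighted sum over the positive integers below `N`. -/
noncomputable def SW (w : ℝ → ℝ) (N : ℕ) : ℝ :=
  ∑ n ∈ Finset.Ico 1 N, Pool.Agent.Helper18.ES.mu n * w ((n : ℝ) / N)

end Pool.Agent.Helper25.ED
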