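import Mathlib

/-!
# The weight `(log (e / (1 - t))) ^ (5 / 4)`
-/

set_option autoImplicit false

namespace Pool.Agent.Helper25.ED

open Filter Topology

/-- The weight `(log (e / (1 - t))) ^ (5 / 4)`. -/
noncomputable def lw (t : ℝ) : ℝ := Real.log (Real.exp 1 / (1 - t)) ^ (5 / 4 : ℝ)

lemma base_eq {t : ℝ} (ht : t < 1) : Real.log (Real.exp 1 / (1 - t)) = 1 - Real.log (1 - t) := by
  rw [Real.log_div (Real.exp_ne_zero 1) (by linarith), Real.log_exp]

lemma base_nonneg {t : ℝ} (ht : t ∈ Set.Ico (0 : ℝ) 1) : 0 ≤ Real.log (Real.exp 1 / (1 - t)) := by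
  rw [base_eq ht.2]
  have := Real.log_nonpos (x := 1 - t) (by linarith [ht.2]) (by linarith [ht.1])
  linarith

lemma lw_nonneg : ∀ t ∈ Set.Ico (0 : ℝ) 1, 0 ≤ lw t := fun _ ht => Real.rpow_nonneg (base_nonneg ht) _

lemma lw_mono : MonotoneOn lw (Set.Ico 0 1) := by
  intro s hs t ht hst
  refine Real.rpow_le_rpow (base_nonneg hs) ?_ (by norm_num)
  rw [base_eq hs.2, base_eq ht.2]
  have := Real.log_le_log (x := 1 - t) (y := 1 - s) (by linarith [ht.2]) (by linarith)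
  linarith

lemma lw_ne : ∃ t ∈ Set.Ico (0 : ℝ) 1, lw t ≠ 0 := by
  refine ⟨0, ⟨le_refl _, one_pos⟩, ?_⟩
  have : lw 0 = 1 := by
    unfold lw
    rw [base_eq one_pos, sub_zero, Real.log_one, sub_zero, Real.one_rpow]
  rw [this]
  exact one_ne_zero

lemma lw_growth : ∀ N : ℕ, 1 ≤ N → lw (1 - 1 / N) ≤ (5 / 2 : ℝ) ^ (5 / 4 : ℝ) * √N := by
  intro N hN
  have hN0 : (0 : ℝ) < N := by exact_mod_cast hN
  have hN1 : (1 : ℝ) ≤ N := by exact_mod_cast hN
  have hb : Real.log (Real.exp 1 / (1 - (1 - 1 / (N : ℝ)))) = 1 + Real.log N := by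
    rw [base_eq (by have : (0 : ℝ) < 1 / N := by positivity
                    linarith)]
    rw [sub_sub_cancel, one_div, Real.log_inv]
    ring
  have hp : (0 : ℝ) < (N : ℝ) ^ (2 / 5 : ℝ) := Real.rpow_pos_of_pos hN0 _
  have h1 : Real.log N ≤ 5 / 2 * ((N : ℝ) ^ (2 / 5 : ℝ) - 1) := by
    have h := Real.log_le_sub_one_of_pos hp
    rw [Real.log_rpow hN0] at h
    linarith
  have h2 : 1 + Real.log N ≤ 5 / 2 * (N : ℝ) ^ (2 / 5 : ℝ) := by linarith
  have h3 : 0 ≤ Real.log (N : ℝ) := Real.log_nonneg hN1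
  calc lw (1 - 1 / N) = (1 + Real.log N) ^ (5 / 4 : ℝ) := by
        unfold lw
        rw [hb]
    _ ≤ (5 / 2 * (N : ℝ) ^ (2 / 5 : ℝ)) ^ (5 / 4 : ℝ) := Real.rpow_le_rpow (by linarith) h2 (by norm_num)
    _ = (5 / 2 : ℝ) ^ (5 / 4 : ℝ) * √N := by
        rw [Real.mul_rpow (by norm_num) hp.le, ← Real.rpow_mul hN0.le, Real.sqrt_eq_rpow]
        norm_num

lemma lw_unbdd : ¬ BddAbove (lw '' Set.Ico 0 1) := by
  rintro ⟨B, hB⟩
  have hs : 0 ≤ max B 0 := le_max_right _ _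
  have ht : 1 - Real.exp (-max B 0) ∈ Set.Ico (0 : ℝ) 1 := by
    constructor
    · have := Real.exp_le_one_iff.2 (show -max B 0 ≤ 0 by linarith)
      linarith
    · have := Real.exp_pos (-max B 0)
      linarith
  have h1 : lw (1 - Real.exp (-max B 0)) = (1 + max B 0) ^ (5 / 4 : ℝ) := by
    unfold lw
    rw [base_eq ht.2, sub_sub_cancel, Real.log_exp]
    ring_nf
  have h2 : (1 + max B 0) ≤ (1 + max B 0) ^ (5 / 4 : ℝ) := by
    have := Real.rpow_le_rpow_of_exponent_le (x := 1 + max B 0) (by linarith) (show (1 : ℝ) ≤ 5 / 4 by norm_num)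
    rwa [Real.rpow_one] at this
  have h3 := hB ⟨_, ht, rfl⟩
  rw [h1] at h3
  have h4 := le_max_left B 0
  linarith

lemma tendsto_lll : Tendsto (fun N : ℕ => Real.log (Real.log (Real.log N))) atTop atTop :=
  Real.tendsto_log_atTop.comp (Real.tendsto_log_atTop.comp (Real.tendsto_log_atTop.comp tendsto_natCast_atTop_atTop))

lemma tendsto_ll : Tendsto (fun N : ℕ => Real.log (Real.log N)) atTop atTop :=
  Real.tendsto_log_atTop.comp (Real.tendsto_log_atTop.comp tendsto_natCast_atTop_atTop)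

lemma lw_edge : ∀ᶠ N : ℕ in atTop, (1 / 2 : ℝ) ^ (5 / 4 : ℝ) * Real.log (Real.log (Real.log N)) ^ (5 / 4 : ℝ) ≤
    lw (1 - Real.log (Real.log (Real.log N)) ^ 3 / Real.log (Real.log N)) := by
  have h1 : ∀ᶠ A : ℝ in atTop, |Real.log A| ≤ 1 / 6 * |A| := by
    have := Real.isLittleO_log_id_atTop.def (show (0 : ℝ) < 1 / 6 by norm_num)
    simpa [Real.norm_eq_abs] using this
  filter_upwards [tendsto_lll.eventually h1, tendsto_lll.eventually (eventually_gt_atTop 0),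
    tendsto_ll.eventually (eventually_gt_atTop 0)] with N h2 h3 h4
  have hE : 0 < Real.log (Real.log (Real.log N)) ^ 3 / Real.log (Real.log N) := div_pos (pow_pos h3 3) h4
  have h5 : Real.log (Real.exp 1 / (1 - (1 - Real.log (Real.log (Real.log N)) ^ 3 / Real.log (Real.log N)))) =
      1 + Real.log (Real.log (Real.log N)) - 3 * Real.log (Real.log (Real.log (Real.log N))) := by
    rw [base_eq (by linarith), sub_sub_cancel, Real.log_div (pow_pos h3 3).ne' h4.ne', Real.log_pow]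
    push_cast
    ring
  rw [abs_of_pos h3] at h2
  have h6 := (abs_le.1 h2).2
  unfold lw
  rw [h5, ← Real.mul_rpow (by norm_num) h3.le]
  refine Real.rpow_le_rpow (by positivity) ?_ (by norm_num)
  linarith

/-- From the general lower bound to the order `(log log log N) ^ (5 / 4)`. -/
lemma lw_order {R : ℕ → ℝ} (h : ∃ c : ℝ, 0 < c ∧ ∀ X : ℕ, ∃ N : ℕ, X ≤ N ∧
      c * lw (1 - Real.log (Real.log (Real.log N)) ^ 3 / Real.log (Real.log N)) * √N < R N) :
    ∃ c : ℝ, 0 < c ∧ ∀ X : ℕ, ∃ N : ℕ, X ≤ N ∧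
      c * √N * Real.log (Real.log (Real.log N)) ^ (5 / 4 : ℝ) < R N := by
  obtain ⟨c, hc, h⟩ := h
  obtain ⟨X₁, h1⟩ := eventually_atTop.1 lw_edge
  refine ⟨c * (1 / 2 : ℝ) ^ (5 / 4 : ℝ), mul_pos hc (Real.rpow_pos_of_pos (by norm_num) _), fun X => ?_⟩
  obtain ⟨N, hN, h2⟩ := h (max X X₁)
  refine ⟨N, (le_max_left _ _).trans hN, lt_of_le_of_lt ?_ h2⟩
  have h3 := h1 N ((le_max_right _ _).trans hN)
  calc c * (1 / 2 : ℝ) ^ (5 / 4 : ℝ) * √N * Real.log (Real.log (Real.log N)) ^ (5 / 4 : ℝ) =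
        c * ((1 / 2 : ℝ) ^ (5 / 4 : ℝ) * Real.log (Real.log (Real.log N)) ^ (5 / 4 : ℝ)) * √N := by ring
    _ ≤ c * lw (1 - Real.log (Real.log (Real.log N)) ^ 3 / Real.log (Real.log N)) * √N :=
        mul_le_mul_of_nonneg_right (mul_le_mul_of_nonneg_left h3 hc.le) (Real.sqrt_nonneg _)

end Pool.Agent.Helper25.ED
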