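import Pool.Agent.Helper95.EW.Hm
import Pool.Agent.Helper63.EW.Up

/-!
# ED: the upper bound (Fubini over the levels)
-/

set_option autoImplicit false
open MeasureTheory Real Set Filter Topology
open Pool.Agent.Helper18.ES (S mu mu_le)
open Pool.Agent.Helper71.MR (gt gt_nonneg gt_zero gt_integrable gt_cont gt_le_one mm mm_meas mm_bd)
open Pool.Agent.Helper95.EW

namespace Pool.Agent.Helper25.ED

variable {w : ℝ → ℝ}

theorem shift_sum (m : ℕ) (a b : ℕ → ℝ) (h : ∀ i < m, a i ≤ b (i + 1)) (hb : 0 ≤ b 0) :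
    ∑ i ∈ Finset.range (m + 1), (a i - b i) ≤ a m := by
  rw [Finset.sum_sub_distrib, Finset.sum_range_succ, Finset.sum_range_succ' b]
  have h1 : ∑ i ∈ Finset.range m, a i ≤ ∑ i ∈ Finset.range m, b (i + 1) :=
    Finset.sum_le_sum fun i hi => h i (Finset.mem_range.mp hi)
  linarith

/-- U1: real `x` against the next integer -/
theorem tele (h0 : ∀ t ∈ Ico (0:ℝ) 1, 0 ≤ w t) (hw : MonotoneOn w (Ico 0 1)) {N : ℕ} (hN : 1 ≤ N) {x : ℝ}
    (h1 : (N : ℝ) < x) (h2 : x < N + 1) {v : ℕ → ℝ} (hv1 : ∀ n ∈ Finset.Icc 1 N, w ((n : ℝ) / ((N + 1 : ℕ) : ℝ)) ≤ v n)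
    (hv2 : ∀ n ∈ Finset.Icc 1 N, v n ≤ w ((n : ℝ) / x)) :
    |(∑ n ∈ Finset.Icc 1 N, mu n * v n) - Pool.Agent.Helper63.EW.S mu w (N + 1)| ≤ w ((N : ℝ) / x) := by
  have hN0 : (1 : ℝ) ≤ N := by exact_mod_cast hN
  have hx0 : 0 < x := by linarith
  have hc : ((N + 1 : ℕ) : ℝ) = N + 1 := by push_cast; rfl
  have hmx : ∀ n : ℕ, n ≤ N → (n : ℝ) / x ∈ Ico (0:ℝ) 1 := by
    intro n hn
    have hn' : (n : ℝ) ≤ N := by exact_mod_cast hn
    refine ⟨by positivity, ?_⟩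
    rw [div_lt_one hx0]
    linarith
  have hmN : ∀ n : ℕ, n ≤ N → (n : ℝ) / ((N + 1 : ℕ) : ℝ) ∈ Ico (0:ℝ) 1 := by
    intro n hn
    have hn' : (n : ℝ) ≤ N := by exact_mod_cast hn
    refine ⟨by positivity, ?_⟩
    rw [hc, div_lt_one (by linarith)]
    linarith
  have e0 : Finset.Ico 1 (N + 1) = Finset.Icc 1 N := by
    ext n; simp only [Finset.mem_Ico, Finset.mem_Icc]; omega
  have e1 : Pool.Agent.Helper63.EW.S mu w (N + 1) =
      ∑ n ∈ Finset.Icc 1 N, mu n * w ((n : ℝ) / ((N + 1 : ℕ) : ℝ)) := by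
    unfold Pool.Agent.Helper63.EW.S
    rw [e0]
  rw [e1, ← Finset.sum_sub_distrib]
  refine (Finset.abs_sum_le_sum_abs _ _).trans ?_
  have s1 : ∑ n ∈ Finset.Icc 1 N, |mu n * v n - mu n * w ((n : ℝ) / ((N + 1 : ℕ) : ℝ))| ≤
      ∑ n ∈ Finset.Icc 1 N, (w ((n : ℝ) / x) - w ((n : ℝ) / ((N + 1 : ℕ) : ℝ))) := by
    apply Finset.sum_le_sum
    intro n hn
    have a1 := hv1 n hn
    have a2 := hv2 n hn
    have a3 := mu_le n
    rw [← mul_sub, abs_mul, abs_of_nonneg (by linarith : 0 ≤ v n - w ((n : ℝ) / ((N + 1 : ℕ) : ℝ)))]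
    have a4 : |mu n| * (v n - w ((n : ℝ) / ((N + 1 : ℕ) : ℝ))) ≤ 1 * (v n - w ((n : ℝ) / ((N + 1 : ℕ) : ℝ))) :=
      mul_le_mul_of_nonneg_right a3 (by linarith)
    linarith
  refine s1.trans ?_
  obtain ⟨m, rfl⟩ : ∃ m, N = m + 1 := ⟨N - 1, by omega⟩
  have e2 : Finset.Icc 1 (m + 1) = Finset.Ico 1 (m + 2) := by
    ext n; simp only [Finset.mem_Ico, Finset.mem_Icc]; omega
  rw [e2, Finset.sum_Ico_eq_sum_range, show m + 2 - 1 = m + 1 by omega]
  have := shift_sum m (fun i => w (((1 + i : ℕ) : ℝ) / x)) (fun i => w (((1 + i : ℕ) : ℝ) / ((m + 1 + 1 : ℕ) : ℝ)))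
    (by
      intro i hi
      apply hw (hmx (1 + i) (by omega)) (hmN (1 + (i + 1)) (by omega))
      rw [div_le_div_iff₀ hx0 (by positivity)]
      push_cast at h1 h2 ⊢
      have hi' : ((i : ℝ) + 1) ≤ m := by exact_mod_cast hi
      have hi0 : (0:ℝ) ≤ i := Nat.cast_nonneg i
      nlinarith)
    (h0 _ (hmN (1 + 0) (by omega)))
  refine this.trans (le_of_eq ?_)
  show w (((1 + m : ℕ) : ℝ) / x) = w (((m + 1 : ℕ) : ℝ) / x)
  rw [add_comm 1 m]

/-- one term of the double integral -/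
noncomputable def Gn (w : ℝ → ℝ) (δ τ : ℝ) (n : ℕ) (u lam : ℝ) : ℝ :=
  (if (n : ℝ) ≤ Real.exp (τ + u) ∧ Ac w lam * Real.exp (τ + u) < n then 1 else 0) * (Real.exp (-(τ + u) / 2) * gt δ u)

/-- the double integral -/
noncomputable def Gd (w : ℝ → ℝ) (δ τ : ℝ) (u lam : ℝ) : ℝ :=
  ∑ n ∈ Finset.Icc 1 ⌊Real.exp (τ + 1)⌋₊, mu n * Gn w δ τ n u lam

theorem S_eq {N : ℕ} {y : ℝ} (hy : y < N + 1) : S mu y = ∑ n ∈ Finset.Icc 1 N, mu n * (if (n : ℝ) ≤ y then 1 else 0) := by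
  unfold S
  rcases lt_or_ge y 0 with h | h
  · have e1 : ∑ n ∈ Finset.Icc 1 N, mu n * (if (n : ℝ) ≤ y then 1 else 0) = 0 := by
      apply Finset.sum_eq_zero
      intro n _
      have : (0:ℝ) ≤ n := Nat.cast_nonneg n
      rw [if_neg (by linarith), mul_zero]
    rw [e1, Nat.floor_of_nonpos h.le]
    simp
  have h1 : Finset.Icc 1 ⌊y⌋₊ = (Finset.Icc 1 N).filter (fun n : ℕ => (n : ℝ) ≤ y) := by
    ext n
    simp only [Finset.mem_Icc, Finset.mem_filter, Nat.le_floor_iff h]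
    constructor
    · rintro ⟨h2, h3⟩
      refine ⟨⟨h2, ?_⟩, h3⟩
      have : (n : ℝ) < N + 1 := by linarith
      have : n < N + 1 := by exact_mod_cast this
      omega
    · rintro ⟨⟨h2, _⟩, h3⟩
      exact ⟨h2, h3⟩
  rw [h1, Finset.sum_filter]
  apply Finset.sum_congr rfl
  intro n _
  split_ifs <;> simp

/-- for every level the sum over `n` is a difference of the Mertens function -/
theorem Gd_eq (hub : ∀ B : ℝ, ∃ t ∈ Ico (0:ℝ) 1, B < w t) {δ τ : ℝ} (hδ : δ ≤ 1) (u lam : ℝ) :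
    Gd w δ τ u lam =
      (S mu (Real.exp (τ + u)) - S mu (Ac w lam * Real.exp (τ + u))) * (Real.exp (-(τ + u) / 2) * gt δ u) := by
  unfold Gd Gn
  rcases le_or_gt δ u with h | h
  · rw [gt_zero (Or.inr h)]; simp
  have hN : Real.exp (τ + u) < (⌊Real.exp (τ + 1)⌋₊ : ℝ) + 1 := by
    have h1 : Real.exp (τ + u) ≤ Real.exp (τ + 1) := Real.exp_le_exp.mpr (by linarith)
    exact h1.trans_lt (Nat.lt_floor_add_one _)
  have hA : Ac w lam * Real.exp (τ + u) ≤ Real.exp (τ + u) := by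
    have := (Ac_lt_one hub lam).le
    have := Real.exp_pos (τ + u)
    nlinarith
  rw [S_eq hN, S_eq (hA.trans_lt hN), ← Finset.sum_sub_distrib, Finset.sum_mul]
  apply Finset.sum_congr rfl
  intro n _
  rw [← mul_assoc, ← mul_sub]
  congr 2
  rcases le_or_gt (n : ℝ) (Ac w lam * Real.exp (τ + u)) with h1 | h1
  · rw [if_pos h1, if_pos (h1.trans hA), if_neg (fun h' => absurd h'.2 (not_lt.mpr h1))]; ring
  · rw [if_neg (not_le.mpr h1)]
    by_cases h2 : (n : ℝ) ≤ Real.exp (τ + u)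
    · rw [if_pos h2, if_pos ⟨h2, h1⟩]; ring
    · rw [if_neg h2, if_neg (fun h' => h2 h'.1)]; ring

theorem mm_gt_int {δ : ℝ} (hδ : δ ≤ 1) (t : ℝ) : Integrable (fun u : ℝ => mm (t + u) * gt δ u) := by
  refine ((gt_integrable δ).const_mul (Real.exp ((t + 1) / 2))).mono' ?_ ?_
  · apply Measurable.aestronglyMeasurable
    have := mm_meas
    have := (gt_cont δ).measurable
    fun_prop
  · filter_upwards with u
    rw [norm_mul, Real.norm_eq_abs, Real.norm_of_nonneg (gt_nonneg _ _)]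
    rcases le_or_gt u 1 with h | h
    · apply mul_le_mul_of_nonneg_right _ (gt_nonneg _ _)
      exact (mm_bd _).trans (Real.exp_le_exp.mpr (by linarith))
    · rw [gt_zero (Or.inr (hδ.trans h.le))]; simp

/-- the inner integral over `u` -/
theorem inner_u (hub : ∀ B : ℝ, ∃ t ∈ Ico (0:ℝ) 1, B < w t) {δ τ : ℝ} (hδ : δ ≤ 1) (lam : ℝ) :
    ∫ u : ℝ, Gd w δ τ u lam = Dl (hm δ) w τ lam := by
  simp_rw [Gd_eq hub hδ]
  unfold Dl hm
  rcases (Ac_nonneg w lam).eq_or_lt with h | h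
  · rw [← h]
    simp only [zero_mul, Real.sqrt_zero, sub_zero]
    apply integral_congr_ae
    filter_upwards with u
    have : S mu 0 = 0 := by unfold S; simp
    rw [this, sub_zero]
    unfold mm
    ring
  · rw [← integral_const_mul, ← integral_sub (mm_gt_int hδ _) ((mm_gt_int hδ _).const_mul _)]
    apply integral_congr_ae
    filter_upwards with u
    have h1 := mm_diff h (τ + u)
    rw [show τ + Real.log (Ac w lam) + u = τ + u + Real.log (Ac w lam) by ring]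
    calc (S mu (Real.exp (τ + u)) - S mu (Ac w lam * Real.exp (τ + u))) * (Real.exp (-(τ + u) / 2) * gt δ u)
        = (Real.exp (-(τ + u) / 2) * (S mu (Real.exp (τ + u)) - S mu (Ac w lam * Real.exp (τ + u)))) * gt δ u := by ring
      _ = _ := by rw [← h1]; ring

/-! ### Fubini -/

theorem Gn_nonneg (δ τ : ℝ) (n : ℕ) (u lam : ℝ) : 0 ≤ Gn w δ τ n u lam := by
  unfold Gn
  apply mul_nonneg
  · split_ifs <;> norm_num
  · exact mul_nonneg (Real.exp_pos _).le (gt_nonneg _ _)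

theorem Gn_meas (hub : ∀ B : ℝ, ∃ t ∈ Ico (0:ℝ) 1, B < w t) (δ τ : ℝ) (n : ℕ) :
    Measurable (Function.uncurry (Gn w δ τ n)) := by
  unfold Gn
  simp only [Function.uncurry_def]
  have hA := Ac_meas hub
  have hg := (gt_cont δ).measurable
  have m1 : MeasurableSet {p : ℝ × ℝ | (n : ℝ) ≤ Real.exp (τ + p.1)} :=
    measurableSet_le measurable_const (by fun_prop)
  have m2 : MeasurableSet {p : ℝ × ℝ | Ac w p.2 * Real.exp (τ + p.1) < n} :=
    measurableSet_lt ((hA.comp measurable_snd).mul (by fun_prop)) measurable_const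
  apply Measurable.mul
  · exact Measurable.ite (m1.inter m2) measurable_const measurable_const
  · fun_prop

/-- the set of the levels which count for `n` -/
theorem Gn_lam (δ τ : ℝ) (n : ℕ) (u : ℝ) :
    (fun lam => Gn w δ τ n u lam) = fun lam => (if (n : ℝ) ≤ Real.exp (τ + u) then (Real.exp (-(τ + u) / 2) * gt δ u) else 0) *
      {lam : ℝ | Ac w lam < (n : ℝ) / Real.exp (τ + u)}.indicator (fun _ => (1:ℝ)) lam := by
  funext lam
  unfold Gn
  simp only [Set.indicator, mem_setOf_eq, lt_div_iff₀ (Real.exp_pos (τ + u))]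
  by_cases h1 : (n : ℝ) ≤ Real.exp (τ + u)
  · by_cases h2 : Ac w lam * Real.exp (τ + u) < n
    · simp [h1, h2]
    · simp [h1, h2]
  · simp [h1]

theorem ind_int (hw : MonotoneOn w (Ico 0 1)) (hub : ∀ B : ℝ, ∃ t ∈ Ico (0:ℝ) 1, B < w t) {t : ℝ} (ht : t < 1) :
    Integrable (fun lam => {lam : ℝ | Ac w lam < t}.indicator (fun _ => (1:ℝ)) lam) (volume.restrict (Ioi (0:ℝ))) ∧
    ∫ lam in Ioi (0:ℝ), {lam : ℝ | Ac w lam < t}.indicator (fun _ => (1:ℝ)) lam =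
      volume.real {lam : ℝ | 0 < lam ∧ Ac w lam < t} := by
  have hm : MeasurableSet {lam : ℝ | Ac w lam < t} := measurableSet_lt (Ac_meas hub) measurable_const
  have hs : {lam : ℝ | Ac w lam < t} ∩ Ioi (0:ℝ) = {lam : ℝ | 0 < lam ∧ Ac w lam < t} := by
    ext lam
    simp only [mem_inter_iff, mem_setOf_eq, mem_Ioi]
    exact and_comm
  constructor
  · rw [integrable_indicator_iff hm]
    refine integrableOn_const ?_
    rw [Measure.restrict_apply hm, hs]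
    exact fin_vol hw hub ht
  · rw [integral_indicator hm, setIntegral_const, smul_eq_mul, mul_one, measureReal_restrict_apply hm, hs]

/-- the inner integral over the levels of one term -/
theorem Gn_inner (hw : MonotoneOn w (Ico 0 1)) (hub : ∀ B : ℝ, ∃ t ∈ Ico (0:ℝ) 1, B < w t) (δ τ : ℝ) (n : ℕ) {u : ℝ}
    (hu : (n : ℝ) ≠ Real.exp (τ + u)) :
    Integrable (fun lam => Gn w δ τ n u lam) (volume.restrict (Ioi (0:ℝ))) ∧
    ∫ lam in Ioi (0:ℝ), Gn w δ τ n u lam = (if (n : ℝ) ≤ Real.exp (τ + u) then (Real.exp (-(τ + u) / 2) * gt δ u) else 0) *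
      volume.real {lam : ℝ | 0 < lam ∧ Ac w lam < (n : ℝ) / Real.exp (τ + u)} := by
  rw [Gn_lam]
  rcases lt_or_ge (Real.exp (τ + u)) (n : ℝ) with h | h
  · simp [not_le.mpr h]
  · have h1 : (n : ℝ) < Real.exp (τ + u) := lt_of_le_of_ne h hu
    have h2 : (n : ℝ) / Real.exp (τ + u) < 1 := by rwa [div_lt_one (Real.exp_pos _)]
    obtain ⟨i1, i2⟩ := ind_int hw hub h2
    exact ⟨i1.const_mul _, by rw [integral_const_mul, i2]⟩

theorem fract_nat {x : ℝ} (hx : 0 ≤ x) (h : Int.fract x ≠ 0) (n : ℕ) : (n : ℝ) ≠ x := by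
  intro h1
  apply h
  rw [← h1]
  exact Int.fract_natCast n

/-- the last weight -/
theorem last_le (h0 : ∀ t ∈ Ico (0:ℝ) 1, 0 ≤ w t) (hw : MonotoneOn w (Ico 0 1)) {C : ℝ} (hC0 : 0 ≤ C)
    (hC : ∀ N : ℕ, 1 ≤ N → w (1 - 1 / N) ≤ C * √N) {x : ℝ} (hx : 0 < x) (hf : Int.fract x ≠ 0) :
    w ((⌊x⌋₊ : ℝ) / x) ≤ 2 * C * Pool.Agent.Helper63.EW.fr x * √x := by
  have hNx : (⌊x⌋₊ : ℝ) ≤ x := Nat.floor_le hx.le
  have hfr : Int.fract x = x - ⌊x⌋₊ := by
    rw [Int.fract, ← natCast_floor_eq_intCast_floor hx.le]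
  have hNx' : (⌊x⌋₊ : ℝ) < x := by
    refine lt_of_le_of_ne hNx fun h => hf ?_
    rw [hfr]; linarith
  rw [Pool.Agent.Helper63.EW.fr, hfr]
  calc w ((⌊x⌋₊ : ℝ) / x) ≤ 2 * C * √x / √(x - ⌊x⌋₊) := Pool.Agent.Helper63.EW.edge_le' hw hC hC0 hNx'
    _ = 2 * C * (√(x - ⌊x⌋₊))⁻¹ * √x := by ring

theorem exp_half_sqrt (y : ℝ) : Real.exp (-y / 2) * √(Real.exp y) = 1 := by
  rw [← Real.exp_half, ← Real.exp_add]
  rw [show -y / 2 + y / 2 = 0 by ring, Real.exp_zero]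

theorem Gn_bd (h0 : ∀ t ∈ Ico (0:ℝ) 1, 0 ≤ w t) (hw : MonotoneOn w (Ico 0 1))
    (hub : ∀ B : ℝ, ∃ t ∈ Ico (0:ℝ) 1, B < w t) {C : ℝ} (hC0 : 0 ≤ C)
    (hC : ∀ N : ℕ, 1 ≤ N → w (1 - 1 / N) ≤ C * √N) (δ τ : ℝ) (n : ℕ) {u : ℝ} (hu : Int.fract (Real.exp (τ + u)) ≠ 0) :
    ∫ lam in Ioi (0:ℝ), Gn w δ τ n u lam ≤ 2 * C * (gt δ u * Pool.Agent.Helper63.EW.fr (Real.exp (τ + u))) := by
  have hx := Real.exp_pos (τ + u)
  rw [(Gn_inner hw hub δ τ n (fract_nat hx.le hu n)).2]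
  have hfn := Pool.Agent.Helper63.EW.fr_nonneg (Real.exp (τ + u))
  have hg := gt_nonneg δ u
  split_ifs with h
  · have h1 : (n : ℝ) < Real.exp (τ + u) := lt_of_le_of_ne h (fract_nat hx.le hu n)
    have h2 : (n : ℝ) / Real.exp (τ + u) < 1 := by rwa [div_lt_one hx]
    have h3 := real_le hw h0 hub (by positivity : (0:ℝ) ≤ (n : ℝ) / Real.exp (τ + u)) h2
    have hfl : (⌊Real.exp (τ + u)⌋₊ : ℝ) < Real.exp (τ + u) :=
      lt_of_le_of_ne (Nat.floor_le hx.le) (fract_nat hx.le hu _)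
    have h4 : w ((n : ℝ) / Real.exp (τ + u)) ≤ w ((⌊Real.exp (τ + u)⌋₊ : ℝ) / Real.exp (τ + u)) := by
      apply hw ⟨by positivity, h2⟩ ⟨by positivity, by rwa [div_lt_one hx]⟩
      apply div_le_div_of_nonneg_right _ hx.le
      exact_mod_cast Nat.le_floor h
    have h5 := last_le h0 hw hC0 hC hx hu
    calc (Real.exp (-(τ + u) / 2) * gt δ u) * volume.real {lam : ℝ | 0 < lam ∧ Ac w lam < (n : ℝ) / Real.exp (τ + u)}
        ≤ (Real.exp (-(τ + u) / 2) * gt δ u) * (2 * C * Pool.Agent.Helper63.EW.fr (Real.exp (τ + u)) * √(Real.exp (τ + u))) := by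
          apply mul_le_mul_of_nonneg_left (h3.trans (h4.trans h5))
          exact mul_nonneg (Real.exp_pos _).le hg
      _ = 2 * C * (gt δ u * Pool.Agent.Helper63.EW.fr (Real.exp (τ + u))) * (Real.exp (-(τ + u) / 2) * √(Real.exp (τ + u))) := by
          ring
      _ = _ := by rw [exp_half_sqrt, mul_one]
  · rw [zero_mul]
    positivity

theorem Gn_prod (h0 : ∀ t ∈ Ico (0:ℝ) 1, 0 ≤ w t) (hw : MonotoneOn w (Ico 0 1))
    (hub : ∀ B : ℝ, ∃ t ∈ Ico (0:ℝ) 1, B < w t) {C : ℝ} (hC0 : 0 ≤ C)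
    (hC : ∀ N : ℕ, 1 ≤ N → w (1 - 1 / N) ≤ C * √N) {δ τ : ℝ}
    (hf : Integrable (fun s : ℝ => gt δ s * Pool.Agent.Helper63.EW.fr (Real.exp (τ + s)))) (n : ℕ) :
    Integrable (Function.uncurry (Gn w δ τ n)) (volume.prod (volume.restrict (Ioi (0:ℝ)))) := by
  have hmeas : AEStronglyMeasurable (Function.uncurry (Gn w δ τ n)) (volume.prod (volume.restrict (Ioi (0:ℝ)))) :=
    (Gn_meas hub δ τ n).aestronglyMeasurable
  rw [integrable_prod_iff hmeas]
  constructor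
  · filter_upwards [Pool.Agent.Helper63.EW.fract_ae τ] with u hu
    exact (Gn_inner hw hub δ τ n (fract_nat (Real.exp_pos _).le hu n)).1
  · refine (hf.const_mul (2 * C)).mono' hmeas.norm.integral_prod_right' ?_
    filter_upwards [Pool.Agent.Helper63.EW.fract_ae τ] with u hu
    have h1 : ∀ lam, ‖Function.uncurry (Gn w δ τ n) (u, lam)‖ = Gn w δ τ n u lam := fun lam =>
      Real.norm_of_nonneg (Gn_nonneg δ τ n u lam)
    simp_rw [h1]
    rw [Real.norm_of_nonneg (integral_nonneg fun lam => Gn_nonneg δ τ n u lam)]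
    exact Gn_bd h0 hw hub hC0 hC δ τ n hu

theorem Gd_prod (h0 : ∀ t ∈ Ico (0:ℝ) 1, 0 ≤ w t) (hw : MonotoneOn w (Ico 0 1))
    (hub : ∀ B : ℝ, ∃ t ∈ Ico (0:ℝ) 1, B < w t) {C : ℝ} (hC0 : 0 ≤ C)
    (hC : ∀ N : ℕ, 1 ≤ N → w (1 - 1 / N) ≤ C * √N) {δ τ : ℝ}
    (hf : Integrable (fun s : ℝ => gt δ s * Pool.Agent.Helper63.EW.fr (Real.exp (τ + s)))) :
    Integrable (Function.uncurry (Gd w δ τ)) (volume.prod (volume.restrict (Ioi (0:ℝ)))) := by
  have h : Function.uncurry (Gd w δ τ) = fun p : ℝ × ℝ => ∑ n ∈ Finset.Icc 1 ⌊Real.exp (τ + 1)⌋₊,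
      mu n * Function.uncurry (Gn w δ τ n) p := by
    funext p
    rfl
  rw [h]
  exact integrable_finset_sum _ fun n _ => (Gn_prod h0 hw hub hC0 hC hf n).const_mul _

/-- the inner integral over the levels -/
theorem Gd_inner (hw : MonotoneOn w (Ico 0 1)) (hub : ∀ B : ℝ, ∃ t ∈ Ico (0:ℝ) 1, B < w t) {δ τ u : ℝ} (hδ : δ ≤ 1)
    (hu : Int.fract (Real.exp (τ + u)) ≠ 0) :
    ∫ lam in Ioi (0:ℝ), Gd w δ τ u lam = (Real.exp (-(τ + u) / 2) * gt δ u) *
      ∑ n ∈ Finset.Icc 1 ⌊Real.exp (τ + u)⌋₊, mu n *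
        volume.real {lam : ℝ | 0 < lam ∧ Ac w lam < (n : ℝ) / Real.exp (τ + u)} := by
  have hx := Real.exp_pos (τ + u)
  rcases le_or_gt δ u with h | h
  · have : ∀ lam, Gd w δ τ u lam = 0 := by
      intro lam
      rw [Gd_eq hub hδ, gt_zero (Or.inr h)]; ring
    simp_rw [this]
    rw [gt_zero (Or.inr h)]; simp
  unfold Gd
  rw [integral_finset_sum _ fun n _ => ((Gn_inner hw hub δ τ n (fract_nat hx.le hu n)).1).const_mul _]
  simp_rw [integral_const_mul]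
  have h1 : Finset.Icc 1 ⌊Real.exp (τ + u)⌋₊ =
      (Finset.Icc 1 ⌊Real.exp (τ + 1)⌋₊).filter (fun n : ℕ => (n : ℝ) ≤ Real.exp (τ + u)) := by
    ext n
    simp only [Finset.mem_Icc, Finset.mem_filter, Nat.le_floor_iff hx.le]
    constructor
    · rintro ⟨h2, h3⟩
      refine ⟨⟨h2, ?_⟩, h3⟩
      apply Nat.le_floor
      exact h3.trans (Real.exp_le_exp.mpr (by linarith))
    · rintro ⟨⟨h2, _⟩, h3⟩
      exact ⟨h2, h3⟩
  rw [h1, Finset.sum_filter, Finset.mul_sum]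
  apply Finset.sum_congr rfl
  intro n _
  rw [(Gn_inner hw hub δ τ n (fract_nat hx.le hu n)).2]
  split_ifs
  · ring
  · ring

/-- **The upper bound**, for the signed sums. -/
theorem upper {σ : ℝ} (hσ : |σ| = 1) (h0 : ∀ t ∈ Ico (0:ℝ) 1, 0 ≤ w t) (hw : MonotoneOn w (Ico 0 1))
    (hub : ∀ B : ℝ, ∃ t ∈ Ico (0:ℝ) 1, B < w t) {C : ℝ} (hC : ∀ N : ℕ, 1 ≤ N → w (1 - 1 / N) ≤ C * √N) {K : ℝ}
    {N₀ : ℕ} (hS : ∀ N : ℕ, N₀ ≤ N → σ * Pool.Agent.Helper63.EW.S mu w N ≤ K * √N) :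
    ∃ K₁ : ℝ, 0 ≤ K₁ ∧ ∀ δ : ℝ, 0 < δ → δ ≤ 1 → ∃ τ₀ : ℝ, ∀ τ : ℝ, τ₀ ≤ τ →
      IntegrableOn (Dl (hm δ) w τ) (Ioi 0) ∧
      σ * ∫ lam in Ioi (0:ℝ), Dl (hm δ) w τ lam ≤ K₁ * ∫ u : ℝ, gt δ u := by
  have hC0 : 0 ≤ C := by
    have := (h0 0 ⟨le_rfl, one_pos⟩).trans (by simpa using hC 1 le_rfl)
    exact this
  refine ⟨2 * |K| + 24 * C, by positivity, fun δ hδ0 hδ => ?_⟩
  obtain ⟨τ₀, hτ₀⟩ := Pool.Agent.Helper63.EW.fract_int hδ0 hδ
  refine ⟨max (max τ₀ 0) (N₀ : ℝ), fun τ hτ => ?_⟩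
  have h1 : τ₀ ≤ τ := (le_max_left _ _).trans ((le_max_left _ _).trans hτ)
  have h2 : 0 ≤ τ := (le_max_right _ _).trans ((le_max_left _ _).trans hτ)
  have h3 : (N₀ : ℝ) ≤ τ := (le_max_right _ _).trans hτ
  obtain ⟨hi, hle⟩ := hτ₀ τ h1
  have hprod := Gd_prod h0 hw hub hC0 hC hi
  have hDl : Dl (hm δ) w τ = fun lam => ∫ u : ℝ, Function.uncurry (Gd w δ τ) (u, lam) := by
    funext lam
    exact (inner_u hub hδ lam).symm
  refine ⟨?_, ?_⟩
  · rw [hDl]
    exact hprod.integral_prod_right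
  rw [hDl]
  have hsw : ∫ lam in Ioi (0:ℝ), ∫ u : ℝ, Function.uncurry (Gd w δ τ) (u, lam) =
      ∫ u : ℝ, ∫ lam in Ioi (0:ℝ), Gd w δ τ u lam := (integral_integral_swap hprod).symm
  rw [hsw, ← integral_const_mul]
  have hI0 : 0 ≤ ∫ u : ℝ, gt δ u := integral_nonneg fun u => gt_nonneg _ _
  calc ∫ u : ℝ, σ * ∫ lam in Ioi (0:ℝ), Gd w δ τ u lam
      ≤ ∫ u : ℝ, (2 * |K| * gt δ u + 2 * C * (gt δ u * Pool.Agent.Helper63.EW.fr (Real.exp (τ + u)))) := by
        refine integral_mono_ae (hprod.integral_prod_left.const_mul σ)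
          (((gt_integrable δ).const_mul _).add (hi.const_mul _)) ?_
        filter_upwards [Pool.Agent.Helper63.EW.fract_ae τ] with u hu
        show σ * ∫ lam in Ioi (0:ℝ), Gd w δ τ u lam ≤
          2 * |K| * gt δ u + 2 * C * (gt δ u * Pool.Agent.Helper63.EW.fr (Real.exp (τ + u)))
        rw [Gd_inner hw hub hδ hu]
        rcases le_or_gt u 0 with hs0 | hs0
        · simp [gt_zero (δ := δ) (Or.inl hs0)]
        have hx := Real.exp_pos (τ + u)
        have hx1 : 1 < Real.exp (τ + u) := Real.one_lt_exp_iff.mpr (by linarith)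
        set x := Real.exp (τ + u) with hxd
        have hN1 : 1 ≤ ⌊x⌋₊ := by
          rw [Nat.one_le_floor_iff]; exact hx1.le
        have hNx : (⌊x⌋₊ : ℝ) < x := lt_of_le_of_ne (Nat.floor_le hx.le) (fract_nat hx.le hu _)
        have hNx2 : x < ⌊x⌋₊ + 1 := Nat.lt_floor_add_one x
        have ht := tele h0 hw hN1 hNx hNx2
          (v := fun n => volume.real {lam : ℝ | 0 < lam ∧ Ac w lam < (n : ℝ) / x})
          (fun n hn => by
            rw [Finset.mem_Icc] at hn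
            have hn1 : (n : ℝ) ≤ ⌊x⌋₊ := by exact_mod_cast hn.2
            have hn0 : (1 : ℝ) ≤ n := by exact_mod_cast hn.1
            apply real_ge hw hub
            · refine ⟨by positivity, ?_⟩
              rw [div_lt_one (by positivity)]
              push_cast; linarith
            · apply div_lt_div_of_pos_left (by linarith) hx
              push_cast; exact hNx2
            · rw [div_lt_one hx]; linarith)
          (fun n hn => by
            rw [Finset.mem_Icc] at hn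
            have hn1 : (n : ℝ) ≤ ⌊x⌋₊ := by exact_mod_cast hn.2
            apply real_le hw h0 hub (by positivity)
            rw [div_lt_one hx]; linarith)
        have h5 := last_le h0 hw hC0 hC hx hu
        have hxN : (N₀ : ℝ) ≤ ⌊x⌋₊ + 1 := by
          have e1 := Real.add_one_le_exp (τ + u)
          rw [← hxd] at e1
          linarith
        have h6 := hS (⌊x⌋₊ + 1) (by exact_mod_cast hxN)
        have h4 : √((⌊x⌋₊ + 1 : ℕ) : ℝ) ≤ 2 * √x := by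
          rw [Real.sqrt_le_left (by positivity), mul_pow, Real.sq_sqrt hx.le]
          push_cast
          linarith
        have h7 : K * √((⌊x⌋₊ + 1 : ℕ) : ℝ) ≤ |K| * (2 * √x) := by
          have := le_abs_self K
          have h8 := Real.sqrt_nonneg ((⌊x⌋₊ + 1 : ℕ) : ℝ)
          have h9 := mul_le_mul_of_nonneg_right this h8
          have h10 := mul_le_mul_of_nonneg_left h4 (abs_nonneg K)
          linarith
        set V := ∑ n ∈ Finset.Icc 1 ⌊x⌋₊, mu n * volume.real {lam : ℝ | 0 < lam ∧ Ac w lam < (n : ℝ) / x} with hV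
        have h11 : σ * V ≤ |K| * (2 * √x) + 2 * C * Pool.Agent.Helper63.EW.fr x * √x := by
          have h12 : σ * (V - Pool.Agent.Helper63.EW.S mu w (⌊x⌋₊ + 1)) ≤
              |V - Pool.Agent.Helper63.EW.S mu w (⌊x⌋₊ + 1)| := by
            refine (le_abs_self _).trans ?_
            rw [abs_mul, hσ, one_mul]
          have h13 : σ * V = σ * (V - Pool.Agent.Helper63.EW.S mu w (⌊x⌋₊ + 1)) +
              σ * Pool.Agent.Helper63.EW.S mu w (⌊x⌋₊ + 1) := by ring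
          rw [h13]
          linarith
        have hφ : 0 ≤ Real.exp (-(τ + u) / 2) * gt δ u := mul_nonneg (Real.exp_pos _).le (gt_nonneg _ _)
        calc σ * (Real.exp (-(τ + u) / 2) * gt δ u * V) = (Real.exp (-(τ + u) / 2) * gt δ u) * (σ * V) := by ring
          _ ≤ (Real.exp (-(τ + u) / 2) * gt δ u) * (|K| * (2 * √x) + 2 * C * Pool.Agent.Helper63.EW.fr x * √x) :=
              mul_le_mul_of_nonneg_left h11 hφ
          _ = (Real.exp (-(τ + u) / 2) * √(Real.exp (τ + u))) * (2 * |K| * gt δ u +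
                2 * C * (gt δ u * Pool.Agent.Helper63.EW.fr x)) := by rw [hxd]; ring
          _ = _ := by rw [exp_half_sqrt, one_mul]
    _ = 2 * |K| * (∫ s, gt δ s) + 2 * C * ∫ s, gt δ s * Pool.Agent.Helper63.EW.fr (Real.exp (τ + s)) := by
        rw [integral_add ((gt_integrable δ).const_mul _) (hi.const_mul _), integral_const_mul, integral_const_mul]
    _ ≤ 2 * |K| * (∫ s, gt δ s) + 2 * C * (12 * ∫ u : ℝ, gt δ u) := by gcongr
    _ = _ := by ring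

end Pool.Agent.Helper25.ED
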